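import Pool.Agent.helper40.SU.SpecB

/-!
# POW: powers of the large sieve
-/

set_option autoImplicit false

open Finset

namespace Pool.Agent.SU

theorem POW_jac {ι : Type} (s : Finset ι) (t : ι → ℕ) (D : ℤ) (h0 : ∀ i ∈ s, t i ≠ 0) :
    ∏ i ∈ s, jacobiSym D (t i) = jacobiSym D (∏ i ∈ s, t i) := by
  classical
  induction s using Finset.induction_on with
  | empty => simp
  | insert a s ha ih =>
    rw [Finset.prod_insert ha, Finset.prod_insert ha, ih (fun i hi => h0 i (Finset.mem_insert_of_mem hi)),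
      jacobiSym.mul_right' D (h0 a (Finset.mem_insert_self a s))
        (Finset.prod_ne_zero_iff.mpr (fun i hi => h0 i (Finset.mem_insert_of_mem hi)))]

theorem POW_odd {ι : Type} (s : Finset ι) (t : ι → ℕ) (h0 : ∀ i ∈ s, Odd (t i)) : Odd (∏ i ∈ s, t i) := by
  classical
  induction s using Finset.induction_on with
  | empty => simp
  | insert a s ha ih =>
    rw [Finset.prod_insert ha]
    exact (h0 a (Finset.mem_insert_self a s)).mul (ih (fun i hi => h0 i (Finset.mem_insert_of_mem hi)))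

/-- the tuples of product `h` -/
def POW_T (𝒢 : Finset ℕ) (k h : ℕ) : Finset (Fin k → ℕ) :=
  (Fintype.piFinset (fun _ : Fin k => 𝒢)).filter (fun t => ∏ i, t i = h)

theorem POW_card (𝒢 : Finset ℕ) (k h : ℕ) (hh : h ≠ 0) : (POW_T 𝒢 k h).card ≤ h.divisors.card ^ k := by
  classical
  have h1 : POW_T 𝒢 k h ⊆ Fintype.piFinset (fun _ : Fin k => h.divisors) := by
    intro t ht
    have ht' := (Finset.mem_filter.mp ht).2
    rw [Fintype.mem_piFinset]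
    intro i
    rw [Nat.mem_divisors]
    refine ⟨?_, hh⟩
    rw [← ht']
    exact Finset.dvd_prod_of_mem t (Finset.mem_univ i)
  refine (Finset.card_le_card h1).trans (le_of_eq ?_)
  rw [Fintype.card_piFinset]
  simp

theorem POW_beta (𝒢 : Finset ℕ) (k : ℕ) (ρ : ℝ) (h0 : ∀ g ∈ 𝒢, Odd g)
    (hd : ∀ t : Fin k → ℕ, (∀ i, t i ∈ 𝒢) → ((∏ i, t i).divisors.card : ℝ) ^ k ≤ ρ) (b : ℕ → ℝ) (h : ℕ) :
    (∑ t ∈ POW_T 𝒢 k h, ∏ i, b (t i)) ^ 2 ≤ ρ * ∑ t ∈ POW_T 𝒢 k h, ∏ i, b (t i) ^ 2 := by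
  classical
  rcases (POW_T 𝒢 k h).eq_empty_or_nonempty with he | ⟨t, ht⟩
  · rw [he]; simp
  · have ht' := Finset.mem_filter.mp ht
    have hmem : ∀ i, t i ∈ 𝒢 := Fintype.mem_piFinset.mp ht'.1
    have hne : h ≠ 0 := by
      rw [← ht'.2]
      exact Finset.prod_ne_zero_iff.mpr (fun i _ => by
        have := h0 _ (hmem i)
        intro hz
        rw [hz] at this
        exact absurd this (by decide))
    have hc : ((POW_T 𝒢 k h).card : ℝ) ≤ ρ := by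
      refine le_trans ?_ (hd t hmem)
      rw [ht'.2]
      exact_mod_cast POW_card 𝒢 k h hne
    refine (sq_sum_le_card_mul_sum_sq (s := POW_T 𝒢 k h) (f := fun t => ∏ i, b (t i))).trans ?_
    have e : ∀ t : Fin k → ℕ, (∏ i, b (t i)) ^ 2 = ∏ i, b (t i) ^ 2 := fun t => (Finset.prod_pow _ _ _).symm
    simp only [e]
    exact mul_le_mul_of_nonneg_right hc (Finset.sum_nonneg (fun t _ => Finset.prod_nonneg (fun i _ => sq_nonneg _)))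

/-- the multiplicative expansion -/
theorem POW_exp (𝒢 : Finset ℕ) (k G : ℕ) (h0 : ∀ g ∈ 𝒢, Odd g ∧ g ≤ 2 * G) (b : ℕ → ℝ) (D : ℕ) :
    (∑ g ∈ 𝒢, b g * (jacobiSym D g : ℝ)) ^ k =
      ∑ h ∈ (Icc 1 ((2 * G) ^ k)).filter (fun h => Odd h), (∑ t ∈ POW_T 𝒢 k h, ∏ i, b (t i)) * (jacobiSym D h : ℝ) := by
  classical
  rw [Finset.sum_pow']
  have hmaps : ∀ t ∈ Fintype.piFinset (fun _ : Fin k => 𝒢), (∏ i, t i) ∈ (Icc 1 ((2 * G) ^ k)).filter (fun h => Odd h) := by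
    intro t ht
    have hmem : ∀ i, t i ∈ 𝒢 := Fintype.mem_piFinset.mp ht
    have hodd : Odd (∏ i, t i) := POW_odd _ _ (fun i _ => (h0 _ (hmem i)).1)
    rw [Finset.mem_filter, Finset.mem_Icc]
    refine ⟨⟨hodd.pos, ?_⟩, hodd⟩
    calc ∏ i, t i ≤ ∏ _i : Fin k, (2 * G) := Finset.prod_le_prod' (fun i _ => (h0 _ (hmem i)).2)
      _ = (2 * G) ^ k := by simp
  rw [← Finset.sum_fiberwise_of_maps_to hmaps]
  refine Finset.sum_congr rfl (fun h _ => ?_)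
  rw [Finset.sum_mul]
  refine Finset.sum_congr rfl (fun t ht => ?_)
  have ht' := Finset.mem_filter.mp ht
  have hmem : ∀ i, t i ∈ 𝒢 := Fintype.mem_piFinset.mp ht'.1
  rw [Finset.prod_mul_distrib]
  congr 1
  rw [← ht'.2, ← POW_jac Finset.univ t D (fun i _ => by
    have := (h0 _ (hmem i)).1
    intro hz
    rw [hz] at this
    exact absurd this (by decide))]
  push_cast
  rfl

theorem POW_betasum (𝒢 : Finset ℕ) (k G : ℕ) (ρ : ℝ) (h0 : ∀ g ∈ 𝒢, Odd g ∧ g ≤ 2 * G)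
    (hd : ∀ t : Fin k → ℕ, (∀ i, t i ∈ 𝒢) → ((∏ i, t i).divisors.card : ℝ) ^ k ≤ ρ) (b : ℕ → ℝ) :
    ∑ h ∈ (Icc 1 ((2 * G) ^ k)).filter (fun h => Odd h), (∑ t ∈ POW_T 𝒢 k h, ∏ i, b (t i)) ^ 2 ≤
      ρ * (∑ g ∈ 𝒢, b g ^ 2) ^ k := by
  classical
  rw [Finset.sum_pow']
  have hmaps : ∀ t ∈ Fintype.piFinset (fun _ : Fin k => 𝒢), (∏ i, t i) ∈ (Icc 1 ((2 * G) ^ k)).filter (fun h => Odd h) := by
    intro t ht
    have hmem : ∀ i, t i ∈ 𝒢 := Fintype.mem_piFinset.mp ht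
    have hodd : Odd (∏ i, t i) := POW_odd _ _ (fun i _ => (h0 _ (hmem i)).1)
    rw [Finset.mem_filter, Finset.mem_Icc]
    refine ⟨⟨hodd.pos, ?_⟩, hodd⟩
    calc ∏ i, t i ≤ ∏ _i : Fin k, (2 * G) := Finset.prod_le_prod' (fun i _ => (h0 _ (hmem i)).2)
      _ = (2 * G) ^ k := by simp
  rw [← Finset.sum_fiberwise_of_maps_to hmaps, Finset.mul_sum]
  refine Finset.sum_le_sum (fun h _ => ?_)
  exact POW_beta 𝒢 k ρ (fun g hg => (h0 g hg).1) hd b h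

theorem POW (hDUA : DUA_stmt) (hLSH : LSH_stmt) : POW_stmt := by
  intro S 𝒢 R k G ρ hS hk hcard h0 hρ hd c
  set Λ : ℝ := (S.card : ℝ) ^ (k - 1) * (2 * ((2 * G : ℕ) : ℝ) ^ k) * ρ with hΛ
  have hΛ0 : 0 ≤ Λ := by positivity
  have hk0 : k ≠ 0 := by omega
  set Δ : ℝ := Λ ^ ((k : ℝ)⁻¹) with hΔ
  have hΔ0 : 0 ≤ Δ := Real.rpow_nonneg hΛ0 _
  have hΔk : Δ ^ k = Λ := Real.rpow_inv_natCast_pow hΛ0 hk0
  have key : ∀ b : ℕ → ℝ, ∑ D ∈ S, (∑ g ∈ 𝒢, b g * (jacobiSym D g : ℝ)) ^ 2 ≤ Δ * ∑ g ∈ 𝒢, b g ^ 2 := by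
    intro b
    have hX0 : 0 ≤ ∑ D ∈ S, (∑ g ∈ 𝒢, b g * (jacobiSym D g : ℝ)) ^ 2 := Finset.sum_nonneg (fun D _ => sq_nonneg _)
    have hB0 : 0 ≤ ∑ g ∈ 𝒢, b g ^ 2 := Finset.sum_nonneg (fun D _ => sq_nonneg _)
    have hpow : (∑ D ∈ S, (∑ g ∈ 𝒢, b g * (jacobiSym D g : ℝ)) ^ 2) ^ k ≤ (Δ * ∑ g ∈ 𝒢, b g ^ 2) ^ k := by
      rw [mul_pow, hΔk]
      obtain ⟨n, rfl⟩ : ∃ n, k = n + 1 := ⟨k - 1, by omega⟩
      have h1 : (∑ D ∈ S, (∑ g ∈ 𝒢, b g * (jacobiSym D g : ℝ)) ^ 2) ^ (n + 1) ≤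
          (S.card : ℝ) ^ n * ∑ D ∈ S, ((∑ g ∈ 𝒢, b g * (jacobiSym D g : ℝ)) ^ 2) ^ (n + 1) :=
        pow_sum_le_card_mul_sum_pow (fun D _ => sq_nonneg _) n
      have h2 : ∑ D ∈ S, ((∑ g ∈ 𝒢, b g * (jacobiSym D g : ℝ)) ^ 2) ^ (n + 1) ≤
          2 * ((2 * G : ℕ) : ℝ) ^ (n + 1) * (ρ * (∑ g ∈ 𝒢, b g ^ 2) ^ (n + 1)) := by
        have h3 : ∀ D : ℕ, ((∑ g ∈ 𝒢, b g * (jacobiSym D g : ℝ)) ^ 2) ^ (n + 1) =
            (∑ h ∈ (Icc 1 ((2 * G) ^ (n + 1))).filter (fun h => Odd h),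
              (∑ t ∈ POW_T 𝒢 (n + 1) h, ∏ i, b (t i)) * (jacobiSym D h : ℝ)) ^ 2 := by
          intro D
          rw [← POW_exp 𝒢 (n + 1) G h0 b D, ← pow_mul, ← pow_mul, mul_comm]
        simp only [h3]
        refine (hLSH S R ((2 * G) ^ (n + 1)) hS (fun h => ∑ t ∈ POW_T 𝒢 (n + 1) h, ∏ i, b (t i))).trans ?_
        have h4 : (((2 * G) ^ (n + 1) : ℕ) : ℝ) + S.card * (R : ℝ) ^ 2 ≤ 2 * ((2 * G : ℕ) : ℝ) ^ (n + 1) := by
          have h5 : (S.card : ℝ) * (R : ℝ) ^ 2 ≤ ((2 * G : ℕ) : ℝ) ^ (n + 1) := by exact_mod_cast hcard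
          have h6 : (((2 * G) ^ (n + 1) : ℕ) : ℝ) = ((2 * G : ℕ) : ℝ) ^ (n + 1) := by push_cast; rfl
          rw [h6]; linarith
        refine mul_le_mul h4 (POW_betasum 𝒢 (n + 1) G ρ h0 hd b) (Finset.sum_nonneg (fun h _ => sq_nonneg _)) (by positivity)
      calc (∑ D ∈ S, (∑ g ∈ 𝒢, b g * (jacobiSym D g : ℝ)) ^ 2) ^ (n + 1)
          ≤ (S.card : ℝ) ^ n * ∑ D ∈ S, ((∑ g ∈ 𝒢, b g * (jacobiSym D g : ℝ)) ^ 2) ^ (n + 1) := h1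
        _ ≤ (S.card : ℝ) ^ n * (2 * ((2 * G : ℕ) : ℝ) ^ (n + 1) * (ρ * (∑ g ∈ 𝒢, b g ^ 2) ^ (n + 1))) :=
            mul_le_mul_of_nonneg_left h2 (by positivity)
        _ = Λ * (∑ g ∈ 𝒢, b g ^ 2) ^ (n + 1) := by
            rw [hΛ, Nat.add_sub_cancel]; ring
    exact (pow_le_pow_iff_left₀ hX0 (mul_nonneg hΔ0 hB0) hk0).mp hpow
  have hfin := hDUA S 𝒢 (fun D g => (jacobiSym D g : ℝ)) Δ hΔ0 key c
  calc (∑ g ∈ 𝒢, (∑ D ∈ S, c D * (jacobiSym D g : ℝ)) ^ 2) ^ k ≤ (Δ * ∑ D ∈ S, c D ^ 2) ^ k :=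
        pow_le_pow_left₀ (Finset.sum_nonneg (fun D _ => sq_nonneg _)) hfin k
    _ = Λ * (∑ D ∈ S, c D ^ 2) ^ k := by rw [mul_pow, hΔk]

end Pool.Agent.SU
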